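import Mathlib

namespace Pool.Agent.Results.MP_59f6dc_co.JumpsUnbounded

/-- The move `(i, j)`: piece `i` jumps over piece `j`, `p i ↦ 2 p j - p i`. -/
noncomputable def jump {N d : ℕ} (P : Fin N → EuclideanSpace ℝ (Fin d)) (m : Fin N × Fin N) :
    Fin N → EuclideanSpace ℝ (Fin d) :=
  Function.update P m.1 ((2 : ℝ) • P m.2 - P m.1)

/-- `Q` is similar to `P` but larger (as multisets of positions). -/
def SimilarLarger {N d : ℕ} (P Q : Fin N → EuclideanSpace ℝ (Fin d)) : Prop :=
  ∃ (lam : ℝ) (R : EuclideanSpace ℝ (Fin d) ≃ₗᵢ[ℝ] EuclideanSpace ℝ (Fin d))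
    (t : EuclideanSpace ℝ (Fin d)), 1 < lam ∧
    Multiset.map Q Finset.univ.val = Multiset.map (fun i => lam • R (P i) + t) Finset.univ.val

/-- The list `l` of moves is a sequence of legal jumps taking `P` to a similar but larger
configuration. -/
def Enlarges {N d : ℕ} (P : Fin N → EuclideanSpace ℝ (Fin d)) (l : List (Fin N × Fin N)) : Prop :=
  (∀ m ∈ l, m.1 ≠ m.2) ∧ SimilarLarger P (l.foldl jump P)

section aux

variable {N d : ℕ}

/-- all differences of positions lie in the subgroup `S` -/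
def DiffIn (S : AddSubgroup (EuclideanSpace ℝ (Fin d))) (P : Fin N → EuclideanSpace ℝ (Fin d)) :
    Prop := ∀ i j, P i - P j ∈ S

lemma jump_apply_self (P : Fin N → EuclideanSpace ℝ (Fin d)) (m : Fin N × Fin N) :
    jump P m m.1 = (2 : ℝ) • P m.2 - P m.1 := by simp [jump]

lemma jump_apply_ne (P : Fin N → EuclideanSpace ℝ (Fin d)) (m : Fin N × Fin N) {i : Fin N}
    (h : i ≠ m.1) : jump P m i = P i := by simp [jump, h]

lemma jump_jump (P : Fin N → EuclideanSpace ℝ (Fin d)) (m : Fin N × Fin N) (h : m.1 ≠ m.2) :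
    jump (jump P m) m = P := by
  funext i
  by_cases hi : i = m.1
  · subst hi
    rw [jump_apply_self, jump_apply_self, jump_apply_ne P m h.symm]
    abel
  · rw [jump_apply_ne _ _ hi, jump_apply_ne _ _ hi]

lemma diffIn_jump {S : AddSubgroup (EuclideanSpace ℝ (Fin d))}
    {P : Fin N → EuclideanSpace ℝ (Fin d)} (h : DiffIn S P) (m : Fin N × Fin N) :
    DiffIn S (jump P m) := by
  have key : ∀ j, jump P m m.1 - P j ∈ S := by
    intro j
    rw [jump_apply_self]
    have : (2 : ℝ) • P m.2 - P m.1 - P j = (P m.2 - P m.1) + (P m.2 - P j) := by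
      rw [two_smul]; abel
    rw [this]
    exact S.add_mem (h _ _) (h _ _)
  intro i j
  by_cases hi : i = m.1
  · by_cases hj : j = m.1
    · rw [hi, hj, sub_self]; exact S.zero_mem
    · rw [jump_apply_ne P m hj, hi]; exact key j
  · by_cases hj : j = m.1
    · rw [jump_apply_ne P m hi, hj, ← neg_sub]; exact S.neg_mem (key i)
    · rw [jump_apply_ne P m hi, jump_apply_ne P m hj]; exact h i j

lemma diffIn_foldl_iff {S : AddSubgroup (EuclideanSpace ℝ (Fin d))} (l : List (Fin N × Fin N))
    (hl : ∀ m ∈ l, m.1 ≠ m.2) (P : Fin N → EuclideanSpace ℝ (Fin d)) :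
    DiffIn S (l.foldl jump P) ↔ DiffIn S P := by
  induction l generalizing P with
  | nil => simp
  | cons m l ih =>
    rw [List.foldl_cons, ih (fun x hx => hl x (List.mem_cons_of_mem _ hx))]
    constructor
    · intro h
      have := diffIn_jump h m
      rwa [jump_jump P m (hl m List.mem_cons_self)] at this
    · intro h
      exact diffIn_jump h m

lemma bound_jump {D : ℝ} {P : Fin N → EuclideanSpace ℝ (Fin d)}
    (h : ∀ i j, ‖P i - P j‖ ≤ D) (m : Fin N × Fin N) (i j : Fin N) :
    ‖jump P m i - jump P m j‖ ≤ 2 * D := by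
  have hD : 0 ≤ D := le_trans (norm_nonneg _) (h i j)
  have key : ∀ j, ‖jump P m m.1 - P j‖ ≤ 2 * D := by
    intro j
    rw [jump_apply_self]
    have : (2 : ℝ) • P m.2 - P m.1 - P j = (P m.2 - P m.1) + (P m.2 - P j) := by
      rw [two_smul]; abel
    rw [this]
    have h1 := h m.2 m.1
    have h2 := h m.2 j
    have h3 := norm_add_le (P m.2 - P m.1) (P m.2 - P j)
    linarith
  by_cases hi : i = m.1
  · by_cases hj : j = m.1
    · rw [hi, hj, sub_self, norm_zero]; linarith
    · rw [jump_apply_ne P m hj, hi]; exact key j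
  · by_cases hj : j = m.1
    · rw [jump_apply_ne P m hi, hj, norm_sub_rev]; exact key i
    · rw [jump_apply_ne P m hi, jump_apply_ne P m hj]
      have := h i j
      linarith

lemma bound_foldl (l : List (Fin N × Fin N)) {D : ℝ} {P : Fin N → EuclideanSpace ℝ (Fin d)}
    (h : ∀ i j, ‖P i - P j‖ ≤ D) (i j : Fin N) :
    ‖l.foldl jump P i - l.foldl jump P j‖ ≤ 2 ^ l.length * D := by
  induction l generalizing P D with
  | nil => simpa using h i j
  | cons m l ih =>
    rw [List.foldl_cons, List.length_cons]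
    have := ih (bound_jump h m)
    calc _ ≤ 2 ^ l.length * (2 * D) := this
      _ = 2 ^ (l.length + 1) * D := by ring

/-- reachability by legal jumps -/
def Reach (P Q : Fin N → EuclideanSpace ℝ (Fin d)) : Prop :=
  ∃ l : List (Fin N × Fin N), (∀ m ∈ l, m.1 ≠ m.2) ∧ l.foldl jump P = Q

lemma Reach.refl (P : Fin N → EuclideanSpace ℝ (Fin d)) : Reach P P := ⟨[], by simp, rfl⟩

lemma Reach.trans {P Q T : Fin N → EuclideanSpace ℝ (Fin d)} (h1 : Reach P Q) (h2 : Reach Q T) :
    Reach P T := by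
  obtain ⟨l1, hl1, rfl⟩ := h1
  obtain ⟨l2, hl2, rfl⟩ := h2
  refine ⟨l1 ++ l2, ?_, by rw [List.foldl_append]⟩
  intro m hm
  rcases List.mem_append.mp hm with h | h
  · exact hl1 m h
  · exact hl2 m h

lemma reach_translate_one (P : Fin N → EuclideanSpace ℝ (Fin d)) {i j k : Fin N}
    (hj : i ≠ j) (hk : i ≠ k) :
    Reach P (Function.update P i (P i + (2 : ℝ) • (P j - P k))) := by
  refine ⟨[(i, k), (i, j)], ?_, ?_⟩
  · intro m hm
    simp only [List.mem_cons, List.not_mem_nil, or_false] at hm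
    rcases hm with rfl | rfl
    · exact hk
    · exact hj
  · funext x
    simp only [List.foldl_cons, List.foldl_nil]
    by_cases hx : x = i
    · subst hx
      have h1 := jump_apply_self (jump P (x, k)) (x, j)
      have h2 := jump_apply_self P (x, k)
      have h3 := jump_apply_ne P (x, k) (i := j) hj.symm
      simp only at h1 h2 h3
      rw [h1, h2, h3, Function.update_self, smul_sub]
      abel
    · rw [jump_apply_ne _ (i, j) hx, jump_apply_ne _ (i, k) hx, Function.update_of_ne hx]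

lemma reach_translate (P : Fin N → EuclideanSpace ℝ (Fin d)) {i j k : Fin N}
    (hj : i ≠ j) (hk : i ≠ k) (n : ℕ) :
    Reach P (Function.update P i (P i + ((2 : ℝ) * n) • (P j - P k))) := by
  induction n with
  | zero => simpa using Reach.refl P
  | succ n ih =>
    refine ih.trans ?_
    have := reach_translate_one (Function.update P i (P i + ((2 : ℝ) * n) • (P j - P k))) hj hk
    rw [Function.update_self, Function.update_of_ne hj.symm, Function.update_of_ne hk.symm,
      Function.update_idem] at this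
    convert this using 2
    rw [add_assoc, ← add_smul]
    push_cast
    ring_nf

/-- units of `ℤ[α]`, `α = k + √(k²+k)`, that exceed `1` exceed `2k - 1` -/
lemma unit_large (k : ℕ) (hk : 1 ≤ k) (s : ℝ) (hs : s ^ 2 = k ^ 2 + k) (hs0 : 0 < s)
    (hirr : Irrational s) (a b c e : ℤ) (u : ℝ) (hu : 1 < u) (h1 : u = a + b * (k + s))
    (h2 : u * (c + e * (k + s)) = 1) : 2 * (k : ℝ) - 1 < u := by
  have hk' : (1 : ℝ) ≤ k := by exact_mod_cast hk
  have hsk : (k : ℝ) < s := by nlinarith
  -- write u = A + b s, inverse = C + e s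
  set A : ℤ := a + b * k with hA
  set C : ℤ := c + e * k with hC
  have hu1 : u = A + b * s := by rw [h1, hA]; push_cast; ring
  have hu2 : (A + b * s) * (C + e * s) = (1 : ℝ) := by
    rw [← hu1, ← h2, hC]; push_cast; ring
  have hexp : ((A * C + b * e * (k ^ 2 + k) - 1 : ℤ) : ℝ) + ((A * e + b * C : ℤ) : ℝ) * s = 0 := by
    push_cast
    rw [← hs]
    linear_combination hu2
  have hlin : (A * e + b * C : ℤ) = 0 := by
    by_contra hne
    have hne' : ((A * e + b * C : ℤ) : ℝ) ≠ 0 := by exact_mod_cast hne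
    apply hirr
    refine ⟨-((A * C + b * e * (k ^ 2 + k) - 1 : ℤ) : ℚ) / ((A * e + b * C : ℤ) : ℚ), ?_⟩
    rw [Rat.cast_div, Rat.cast_neg, Rat.cast_intCast, Rat.cast_intCast, div_eq_iff hne']
    linarith
  have hcst : (A * C + b * e * (k ^ 2 + k) - 1 : ℤ) = 0 := by
    rw [hlin] at hexp
    simp only [Int.cast_zero, zero_mul, add_zero] at hexp
    exact_mod_cast hexp
  have hnorm : (A ^ 2 - b ^ 2 * (k ^ 2 + k)) * (C ^ 2 - e ^ 2 * (k ^ 2 + k)) = (1 : ℤ) := by
    have : (A ^ 2 - b ^ 2 * (k ^ 2 + k)) * (C ^ 2 - e ^ 2 * (k ^ 2 + k))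
        = (A * C + b * e * (k ^ 2 + k)) ^ 2 - (A * e + b * C) ^ 2 * ((k : ℤ) ^ 2 + k) := by ring
    rw [this, hlin]
    have h3 : A * C + b * e * (k ^ 2 + k) = 1 := by linarith
    rw [h3]; ring
  have hN := Int.eq_one_or_neg_one_of_mul_eq_one hnorm
  have hprod : u * (A - b * s) = ((A ^ 2 - b ^ 2 * (k ^ 2 + k) : ℤ) : ℝ) := by
    push_cast
    rw [hu1, ← hs]; ring
  have hlow : -1 < (A : ℝ) - b * s := by
    rcases hN with h | h
    · rw [h] at hprod; push_cast at hprod; nlinarith
    · rw [h] at hprod; push_cast at hprod; nlinarith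
  have hup : (A : ℝ) - b * s < 1 := by
    rcases hN with h | h
    · rw [h] at hprod; push_cast at hprod; nlinarith
    · rw [h] at hprod; push_cast at hprod; nlinarith
  have hb : (0 : ℝ) < b := by
    have : 0 < (b : ℝ) * s := by linarith
    exact (mul_pos_iff_of_pos_right hs0).mp this
  have hb1 : (1 : ℝ) ≤ b := by
    have : (0 : ℤ) < b := by exact_mod_cast hb
    exact_mod_cast this
  nlinarith

/-- the subgroup `{(a + b α) • v}` -/
def lat (α : ℝ) (v : EuclideanSpace ℝ (Fin d)) : AddSubgroup (EuclideanSpace ℝ (Fin d)) where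
  carrier := {w | ∃ a b : ℤ, w = ((a : ℝ) + b * α) • v}
  zero_mem' := ⟨0, 0, by simp⟩
  add_mem' := by
    rintro _ _ ⟨a, b, rfl⟩ ⟨c, e, rfl⟩
    refine ⟨a + c, b + e, ?_⟩
    rw [← add_smul]; push_cast; ring_nf
  neg_mem' := by
    rintro _ ⟨a, b, rfl⟩
    refine ⟨-a, -b, ?_⟩
    rw [← neg_smul]; push_cast; ring_nf

lemma similar_fwd {P Q : Fin N → EuclideanSpace ℝ (Fin d)}
    (h : Multiset.map Q Finset.univ.val = Multiset.map P Finset.univ.val) (i : Fin N) :
    ∃ j, Q j = P i := by
  have : P i ∈ Multiset.map Q Finset.univ.val := by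
    rw [h]; exact Multiset.mem_map_of_mem _ (Finset.mem_univ i)
  obtain ⟨j, -, hj⟩ := Multiset.mem_map.mp this
  exact ⟨j, hj⟩

/-- the lower bound -/
lemma lower (k : ℕ) (hk : 1 ≤ k) (s : ℝ) (hs : s ^ 2 = k ^ 2 + k) (hs0 : 0 < s)
    (hirr : Irrational s) (v : EuclideanSpace ℝ (Fin d)) (hv : ‖v‖ = 1)
    (P : Fin N → EuclideanSpace ℝ (Fin d)) (hP : DiffIn (lat (k + s) v) P) (i0 i1 : Fin N)
    (h01 : P i1 - P i0 = v) (l : List (Fin N × Fin N)) (hl : Enlarges P l) :
    2 * (k : ℝ) - 1 < 2 ^ l.length := by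
  obtain ⟨hl, lam, R, t, hlam, hQ⟩ := hl
  set Q := l.foldl jump P with hQdef
  have hf := similar_fwd hQ
  have hb := similar_fwd hQ.symm
  have hlam0 : 0 < lam := by linarith
  -- growth bound
  have hgrow : lam ≤ 2 ^ l.length := by
    have : Nonempty (Fin N × Fin N) := ⟨(i0, i1)⟩
    obtain ⟨⟨a, b⟩, hab⟩ := Finite.exists_max (fun x : Fin N × Fin N => ‖P x.1 - P x.2‖)
    have hD : ∀ i j, ‖P i - P j‖ ≤ ‖P a - P b‖ := fun i j => hab (i, j)
    have hDpos : 0 < ‖P a - P b‖ := by
      have := hD i1 i0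
      rw [h01, hv] at this
      linarith
    obtain ⟨ja, hja⟩ := hf a
    obtain ⟨jb, hjb⟩ := hf b
    have h1 := bound_foldl l hD ja jb
    rw [← hQdef, hja, hjb, add_sub_add_right_eq_sub, ← smul_sub, ← map_sub, norm_smul,
      LinearIsometryEquiv.norm_map, Real.norm_eq_abs, abs_of_pos hlam0] at h1
    exact le_of_mul_le_mul_right h1 hDpos
  -- lam is in the ring
  have hQ1 : DiffIn (lat (k + s) v) Q := (diffIn_foldl_iff l hl P).mpr hP
  obtain ⟨a, b, hab⟩ : ∃ a b : ℤ, lam = a + b * (k + s) := by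
    obtain ⟨j0, hj0⟩ := hf i0
    obtain ⟨j1, hj1⟩ := hf i1
    obtain ⟨a, b, h⟩ := hQ1 j1 j0
    rw [hj0, hj1, add_sub_add_right_eq_sub, ← smul_sub, ← map_sub, h01] at h
    have h' := congrArg norm h
    rw [norm_smul, norm_smul, LinearIsometryEquiv.norm_map, hv, Real.norm_eq_abs,
      Real.norm_eq_abs, abs_of_pos hlam0, mul_one, mul_one] at h'
    rcases abs_cases ((a : ℝ) + b * (k + s)) with h'' | h''
    · exact ⟨a, b, by rw [h', h''.1]⟩
    · refine ⟨-a, -b, ?_⟩
      rw [h', h''.1]; push_cast; ring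
  have hQ2 : DiffIn (lat (k + s) (lam • R v)) Q := by
    intro i j
    obtain ⟨x, hx⟩ := hb i
    obtain ⟨y, hy⟩ := hb j
    obtain ⟨c, e, h⟩ := hP x y
    refine ⟨c, e, ?_⟩
    rw [← hx, ← hy, add_sub_add_right_eq_sub, ← smul_sub, ← map_sub, h, map_smul, smul_comm]
  obtain ⟨c, e, hce⟩ : ∃ c e : ℤ, lam * (c + e * (k + s)) = 1 := by
    obtain ⟨c, e, h⟩ := (diffIn_foldl_iff l hl P).mp hQ2 i1 i0
    rw [h01] at h
    have h' := congrArg norm h
    rw [norm_smul, norm_smul, LinearIsometryEquiv.norm_map, hv, Real.norm_eq_abs,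
      Real.norm_eq_abs, abs_of_pos hlam0, mul_one] at h'
    rcases abs_cases ((c : ℝ) + e * (k + s)) with h'' | h''
    · exact ⟨c, e, by rw [h', h''.1]; ring⟩
    · refine ⟨-c, -e, ?_⟩
      rw [h', h''.1]; push_cast; ring
  have := unit_large k hk s hs hs0 hirr a b c e lam hlam hab hce
  linarith

/-- the enlarging sequence -/
lemma upper (k : ℕ) (α : ℝ) (hα : α ^ 2 = 2 * k * α + k)
    (v : EuclideanSpace ℝ (Fin d)) (i0 i1 i2 : Fin N) (h0 : i0.val = 0) (h1 : i1.val = 1)
    (h2 : i2.val = 2) (P : Fin N → EuclideanSpace ℝ (Fin d))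
    (hP : ∀ i, i ≠ i2 → P i = (i.val : ℝ) • v) (hP2 : P i2 = α • v) :
    Reach P (fun i => (1 + 2 * α) • P i) := by
  have h02 : i0 ≠ i2 := by intro h; rw [h] at h0; omega
  have h12 : i1 ≠ i2 := by intro h; rw [h] at h1; omega
  have hP0 : P i0 = 0 := by rw [hP i0 h02, h0]; simp
  have step : ∀ S : Finset (Fin N), i2 ∉ S →
      Reach P (fun i => if i ∈ S then (1 + 2 * α) • P i else P i) := by
    intro S
    induction S using Finset.induction_on with
    | empty => intro _; simpa using Reach.refl P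
    | insert x S hx ih =>
      intro hS
      have hx2 : x ≠ i2 := by rintro rfl; exact hS (Finset.mem_insert_self _ _)
      have hS2 : i2 ∉ S := fun h => hS (Finset.mem_insert_of_mem h)
      refine (ih hS2).trans ?_
      by_cases hx0 : x = i0
      · convert Reach.refl _ using 1
        funext i
        by_cases hi : i = x
        · simp [hi, hx0, hP0]
        · simp [hi]
      · have := reach_translate (fun i => if i ∈ S then (1 + 2 * α) • P i else P i) hx2 hx0 x.val
        convert this using 1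
        funext i
        by_cases hi : i = x
        · subst hi
          rw [Function.update_self]
          simp only [Finset.mem_insert, true_or, if_true, hx, if_false, hS2, hP0, smul_zero,
            ite_self, sub_zero]
          rw [hP i hx2, hP2, smul_smul, smul_smul, ← add_smul]
          congr 1; ring
        · rw [Function.update_of_ne hi]
          simp [hi]
  refine (step (Finset.univ.erase i2) (Finset.notMem_erase _ _)).trans ?_
  have := reach_translate
    (fun i => if i ∈ Finset.univ.erase i2 then (1 + 2 * α) • P i else P i) h12.symm h02.symm k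
  convert this using 1
  funext i
  by_cases hi : i = i2
  · subst hi
    rw [Function.update_self]
    simp only [Finset.mem_erase, ne_eq, not_true_eq_false, Finset.mem_univ, and_true, if_false,
      h12, not_false_eq_true, if_true, hP0, smul_zero, ite_self, sub_zero]
    rw [hP i1 h12, hP2, h1, smul_smul, smul_smul, smul_smul, ← add_smul]
    congr 1
    push_cast
    linear_combination 2 * hα
  · rw [Function.update_of_ne hi]
    simp [hi]

end aux

/-- For every `N ≥ 3`, every dimension `d ≥ 1` and every bound `B` there is an enlargeable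
configuration of `N` distinct points of `ℝ^d` that needs more than `B` jumps to be enlarged. -/
theorem result (N d B : ℕ) (hN : 3 ≤ N) (hd : 1 ≤ d) :
    ∃ P : Fin N → EuclideanSpace ℝ (Fin d), Function.Injective P ∧
      (∃ l : List (Fin N × Fin N), Enlarges P l) ∧
      ∀ l : List (Fin N × Fin N), Enlarges P l → B < l.length := by
  obtain ⟨k, hk, hkB⟩ : ∃ k : ℕ, 1 ≤ k ∧ 2 ^ B ≤ k := ⟨2 ^ B, Nat.one_le_two_pow, le_rfl⟩
  have hk' : (1 : ℝ) ≤ k := by exact_mod_cast hk
  set s : ℝ := Real.sqrt ((k ^ 2 + k : ℕ) : ℝ) with hsdef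
  have hs : s ^ 2 = (k : ℝ) ^ 2 + k := by
    rw [hsdef, Real.sq_sqrt (Nat.cast_nonneg _)]; push_cast; ring
  have hs0 : 0 < s := by
    rw [hsdef]; apply Real.sqrt_pos.mpr; push_cast; nlinarith
  have hirr : Irrational s := by
    rw [hsdef, irrational_sqrt_natCast_iff]
    rintro ⟨r, hr⟩
    have h1 : k < r := by nlinarith
    nlinarith
  set v : EuclideanSpace ℝ (Fin d) := EuclideanSpace.single ⟨0, hd⟩ (1 : ℝ) with hvdef
  have hv : ‖v‖ = 1 := by simp [hvdef]
  have hv0 : v ≠ 0 := by intro h; rw [h, norm_zero] at hv; exact zero_ne_one hv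
  set i0 : Fin N := ⟨0, by omega⟩
  set i1 : Fin N := ⟨1, by omega⟩
  set i2 : Fin N := ⟨2, by omega⟩
  have h02 : i0 ≠ i2 := by simp [i0, i2]
  have h12 : i1 ≠ i2 := by simp [i1, i2]
  set x : Fin N → ℝ := fun i => if i = i2 then (k : ℝ) + s else (i.val : ℝ) with hx
  have hx2 : x i2 = k + s := by simp [hx]
  have hxi : ∀ i, i ≠ i2 → x i = (i.val : ℝ) := by intro i hi; simp [hx, hi]
  have hne : ∀ n : ℕ, (k : ℝ) + s ≠ n := by
    intro n h
    apply hirr
    refine ⟨(n : ℚ) - k, ?_⟩
    push_cast; linarith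
  refine ⟨fun i => x i • v, ?_, ?_, ?_⟩
  · intro i j hij
    have hij' : x i = x j := smul_left_injective ℝ hv0 hij
    by_cases hi : i = i2
    · by_cases hj : j = i2
      · rw [hi, hj]
      · rw [hi, hx2, hxi j hj] at hij'; exact absurd hij' (hne _)
    · by_cases hj : j = i2
      · rw [hj, hx2, hxi i hi] at hij'; exact absurd hij'.symm (hne _)
      · rw [hxi i hi, hxi j hj] at hij'
        exact Fin.ext (by exact_mod_cast hij')
  · obtain ⟨l, hl, hQ⟩ := upper k (k + s) (by linear_combination hs) v i0 i1 i2 rfl rfl rfl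
      (fun i => x i • v) (fun i hi => by rw [hxi i hi]) (by rw [hx2])
    refine ⟨l, hl, 1 + 2 * (k + s), LinearIsometryEquiv.refl ℝ _, 0, by linarith, ?_⟩
    rw [hQ]
    simp
  · intro l hl
    have hP : DiffIn (lat (k + s) v) (fun i => x i • v) := by
      have hm : ∀ i, x i • v ∈ lat (k + s) v := by
        intro i
        by_cases hi : i = i2
        · exact ⟨0, 1, by rw [hi, hx2]; simp⟩
        · exact ⟨i.val, 0, by rw [hxi i hi]; simp⟩
      intro i j
      exact (lat (k + s) v).sub_mem (hm i) (hm j)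
    have := lower k hk s hs hs0 hirr v hv _ hP i0 i1
      (by rw [hxi i0 h02, hxi i1 h12]; simp [i0, i1]) l hl
    have h1 : (k : ℝ) < 2 ^ l.length := by linarith
    have h2 : k < 2 ^ l.length := by exact_mod_cast h1
    exact (Nat.pow_lt_pow_iff_right (by norm_num : 1 < 2)).mp (lt_of_le_of_lt hkB h2)

end Pool.Agent.Results.MP_59f6dc_co.JumpsUnbounded
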